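import Pool.Agent.H98.PW.Stmts

/-!
# UNQ: uniqueness of simple roots modulo a prime power
-/

set_option autoImplicit false

namespace Pool.PW

open Polynomial

theorem unq_thm : S_UNQ := by
  intro p N g y z _ hyz hy hz hu
  obtain ⟨u, hu'⟩ := hyz
  obtain ⟨k, hk⟩ := Polynomial.binomExpansion g y (z - y)
  have hz' : y + (z - y) = z := by ring
  rw [hz', hz, hy] at hk
  have hnil : IsNilpotent (z - y) := by
    refine ⟨N, ?_⟩
    have h1 : z - y = (p : ZMod (p ^ N)) * (-u) := by
      rw [mul_neg, ← hu']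
      ring
    have h2 : ((p : ZMod (p ^ N))) ^ N = 0 := by
      have h3 : ((p ^ N : ℕ) : ZMod (p ^ N)) = 0 := ZMod.natCast_self _
      rw [Nat.cast_pow] at h3
      exact h3
    rw [h1, mul_pow, h2, zero_mul]
  have hnil2 : IsNilpotent (k * (z - y)) := by
    obtain ⟨M, hM⟩ := hnil
    exact ⟨M, by rw [mul_pow, hM, mul_zero]⟩
  have hunit : IsUnit (g.derivative.eval y + k * (z - y)) := by
    exact hnil2.isUnit_add_left_of_commute hu (Commute.all _ _)
  have h0 : (g.derivative.eval y + k * (z - y)) * (z - y) = 0 := by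
    have h4 : (g.derivative.eval y + k * (z - y)) * (z - y) =
        0 + g.derivative.eval y * (z - y) + k * (z - y) ^ 2 := by ring
    rw [h4]
    exact hk.symm
  have h5 : z - y = 0 := (hunit.mul_right_eq_zero).mp h0
  exact (sub_eq_zero.mp h5).symm

end Pool.PW
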